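import Pool.Agent.H92.EM.TC
import Pool.Agent.H13.EHD.EPA
import Pool.Agent.H20.EHD.EG2
import Pool.Agent.H96.EQ.D12

/-! Row MPA of the board emd_modules: the mean over the group of a density in `Zk m κ`. -/

set_option autoImplicit false

open MeasureTheory Pool.Agent.H92.EQ Pool.Agent.H92.EM
open scoped BigOperators ComplexConjugate ContDiff ComplexOrder

namespace Pool.Agent.H73.EM

open Pool.Agent.H13.EHD (ofReal_int_le qf cf qf_meas qf_nonneg cf_meas cf_nonneg ev_cont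
  jac_cont ev_lin jac_lin lin_isH)

theorem rad_psd {ι : Type} [Fintype ι] [DecidableEq ι] (z : ι → ℂ) :
    (Rad z).PosSemidef := by
  have h : Rad z = Matrix.vecMulVec (fun a => conj (z a) / (2 * (nsq z : ℂ)))
      (star (fun a => conj (z a) / (2 * (nsq z : ℂ)))) := by
    ext a b
    unfold Rad
    rw [Matrix.vecMulVec_apply, Pi.star_apply, RCLike.star_def, map_div₀, map_mul,
      Complex.conj_conj, Complex.conj_ofReal, Complex.conj_ofNat]
    rw [div_mul_div_comm]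
    congr 1
    ring
  rw [h]
  exact Matrix.posSemidef_vecMulVec_self_star _

/-! ### The matrices -/

section mats

variable {k : ℕ}

theorem th0_pos : 0 < th0 k := by unfold th0; positivity

theorem bth_nonneg (hB : T_MBU) {θ : ℝ} (hθ : 0 < θ) (X : Fin (k + 1) → Fin (k + 1) → ℂ) :
    0 ≤ bth θ X := by
  obtain ⟨C, _, h1, _⟩ := hB
  exact Finset.prod_nonneg fun i _ => Finset.prod_nonneg fun j _ => (h1 θ hθ).2.1 _

theorem bth_cont (hB : T_MBU) {θ : ℝ} (hθ : 0 < θ) :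
    Continuous fun X : Fin (k + 1) → Fin (k + 1) → ℂ => bth θ X := by
  obtain ⟨C, _, h1, _⟩ := hB
  refine continuous_finsetProd _ fun i _ => continuous_finsetProd _ fun j _ => ?_
  exact (h1 θ hθ).1.continuous.comp ((continuous_apply j).comp (continuous_apply i))

theorem bth_supp (hB : T_MBU) {θ : ℝ} (hθ : 0 < θ) {X : Fin (k + 1) → Fin (k + 1) → ℂ}
    (hX : bth θ X ≠ 0) (i j : Fin (k + 1)) : ‖X i j‖ ≤ θ := by
  obtain ⟨C, _, h1, _⟩ := hB
  by_contra hn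
  refine hX (Finset.prod_eq_zero (Finset.mem_univ i) (Finset.prod_eq_zero (Finset.mem_univ j) ?_))
  exact (h1 θ hθ).2.2.2.1 _ (not_le.1 hn).le

theorem mX_near (m : ℕ) (X : Fin (k + 1) → Fin (k + 1) → ℂ) {θ : ℝ} (hθ : 0 ≤ θ)
    (hX : ∀ i j, ‖X i j‖ ≤ θ) (i j : Fin (k + 1)) :
    ‖mX m X i j - (1 : Matrix (Fin (k + 1)) (Fin (k + 1)) ℂ) i j‖ ≤ θ := by
  unfold mX msk
  split_ifs with h
  · rw [Matrix.one_apply_ne (fun h0 => h.2 h0.symm), sub_zero, norm_zero]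
    exact hθ
  · rw [Matrix.add_apply, Matrix.of_apply, add_sub_cancel_left]
    exact hX i j

theorem near_inj (A : Matrix (Fin (k + 1)) (Fin (k + 1)) ℂ)
    (hA : ∀ i j, ‖A i j - (1 : Matrix (Fin (k + 1)) (Fin (k + 1)) ℂ) i j‖ ≤ th0 k)
    (y : Fin (k + 1) → ℂ) (hy : A.mulVec y = 0) : y = 0 := by
  obtain ⟨i0, hi0⟩ := Finite.exists_max fun i => ‖y i‖
  have h1 : y i0 = -∑ j, (A i0 j - (1 : Matrix (Fin (k + 1)) (Fin (k + 1)) ℂ) i0 j) * y j := by
    have h2 : A.mulVec y i0 = 0 := by rw [hy]; rfl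
    have h3 : (1 : Matrix (Fin (k + 1)) (Fin (k + 1)) ℂ).mulVec y i0 = y i0 := by
      rw [Matrix.one_mulVec]
    simp only [Matrix.mulVec, dotProduct] at h2 h3
    simp only [sub_mul, Finset.sum_sub_distrib, h2, h3]
    ring
  have h2 : ‖y i0‖ ≤ ∑ j : Fin (k + 1), th0 k * ‖y i0‖ := by
    calc ‖y i0‖ = ‖∑ j, (A i0 j - (1 : Matrix (Fin (k + 1)) (Fin (k + 1)) ℂ) i0 j) * y j‖ := by
          conv_lhs => rw [h1]
          rw [norm_neg]
      _ ≤ ∑ j, ‖(A i0 j - (1 : Matrix (Fin (k + 1)) (Fin (k + 1)) ℂ) i0 j) * y j‖ :=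
          norm_sum_le _ _
      _ ≤ _ := Finset.sum_le_sum fun j _ => by
          rw [norm_mul]
          exact mul_le_mul (hA i0 j) (hi0 j) (norm_nonneg _) th0_pos.le
  rw [Finset.sum_const, Finset.card_univ, Fintype.card_fin, nsmul_eq_mul, ← mul_assoc] at h2
  have h3 : ((k + 1 : ℕ) : ℝ) * th0 k = 1 / 8 := by
    unfold th0
    push_cast
    field_simp
  rw [h3] at h2
  have h4 : ‖y i0‖ = 0 := by
    have := norm_nonneg (y i0)
    linarith
  funext i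
  have h5 := hi0 i
  rw [h4] at h5
  exact norm_le_zero_iff.1 h5

theorem near_det (A : Matrix (Fin (k + 1)) (Fin (k + 1)) ℂ)
    (hA : ∀ i j, ‖A i j - (1 : Matrix (Fin (k + 1)) (Fin (k + 1)) ℂ) i j‖ ≤ th0 k) :
    A.det ≠ 0 := by
  intro h
  obtain ⟨v, hv, hv2⟩ := Matrix.exists_mulVec_eq_zero_iff.2 h
  exact hv (near_inj A hA v hv2)

theorem mX_cont (m : ℕ) : Continuous fun X : Fin (k + 1) → Fin (k + 1) → ℂ => mX m X := by
  refine continuous_pi fun i => continuous_pi fun j => ?_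
  unfold mX msk
  split_ifs
  · exact continuous_const
  · simp only [Matrix.add_apply, Matrix.of_apply]
    exact continuous_const.add ((continuous_apply j).comp (continuous_apply i))

theorem av_int (hB : T_MBU) {p : ℕ} (m : ℕ) {S : Form (Fin (k + 1)) p} (hS : ProjForm S)
    {y : Fin (k + 1) → ℂ} (hy : y ≠ 0) (I J : Fin p → Fin (k + 1)) :
    Integrable fun X : Fin (k + 1) → Fin (k + 1) → ℂ =>
      ((bth (th0 k) X : ℝ) : ℂ) * pull (lin (mX m X)) S y I J := by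
  set U : Set (Fin (k + 1) → Fin (k + 1) → ℂ) := {X | (mX m X).mulVec y ≠ 0} with hU
  have hUo : IsOpen U := by
    have h1 : Continuous fun X : Fin (k + 1) → Fin (k + 1) → ℂ => (mX m X).mulVec y :=
      (mX_cont m).matrix_mulVec continuous_const
    exact isOpen_ne_fun h1 continuous_const
  have hc : ContinuousOn (fun X : Fin (k + 1) → Fin (k + 1) → ℂ =>
      ((bth (th0 k) X : ℝ) : ℂ) * pull (lin (mX m X)) S y I J) U := by
    refine (Complex.continuous_ofReal.comp (bth_cont hB th0_pos)).continuousOn.mul ?_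
    unfold pull
    simp only [ev_lin, jac_lin]
    refine continuousOn_finsetSum _ fun I' _ => continuousOn_finsetSum _ fun J' _ => ?_
    refine (ContinuousOn.mul (ContinuousOn.mul ?_ ?_) ?_)
    · refine ContinuousOn.comp (t := {0}ᶜ) (hS.cp.smooth I' J').continuousOn
        (((mX_cont m).matrix_mulVec continuous_const).continuousOn) ?_
      intro X hX
      exact hX
    · refine Continuous.continuousOn (continuous_finsetProd _ fun l _ => ?_)
      exact ((continuous_apply (I l)).comp (continuous_apply (I' l))).comp (mX_cont m)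
    · refine Continuous.continuousOn (continuous_finsetProd _ fun l _ => ?_)
      exact Complex.continuous_conj.comp
        (((continuous_apply (J l)).comp (continuous_apply (J' l))).comp (mX_cont m))
  have hsup : Function.support (fun X : Fin (k + 1) → Fin (k + 1) → ℂ =>
      ((bth (th0 k) X : ℝ) : ℂ) * pull (lin (mX m X)) S y I J) ⊆
      Metric.closedBall 0 (th0 k) := by
    intro X hX
    have h1 : bth (th0 k) X ≠ 0 := by
      intro h0
      refine hX ?_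
      simp only [h0, Complex.ofReal_zero, zero_mul]
    rw [mem_closedBall_zero_iff, pi_norm_le_iff_of_nonneg th0_pos.le]
    intro i
    rw [pi_norm_le_iff_of_nonneg th0_pos.le]
    intro j
    exact bth_supp hB th0_pos h1 i j
  have hK : IsCompact (Metric.closedBall (0 : Fin (k + 1) → Fin (k + 1) → ℂ) (th0 k)) :=
    isCompact_closedBall 0 _
  have hts : tsupport (fun X : Fin (k + 1) → Fin (k + 1) → ℂ =>
      ((bth (th0 k) X : ℝ) : ℂ) * pull (lin (mX m X)) S y I J) ⊆ U := by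
    refine (closure_minimal hsup Metric.isClosed_closedBall).trans ?_
    intro X hX
    rw [mem_closedBall_zero_iff, pi_norm_le_iff_of_nonneg th0_pos.le] at hX
    intro h0
    refine hy (near_inj (mX m X) (mX_near m X th0_pos.le fun i j => ?_) y h0)
    exact (pi_norm_le_iff_of_nonneg th0_pos.le).1 (hX i) j
  have hcont := hc.continuous_of_tsupport_subset hUo hts
  exact hcont.integrable_of_hasCompactSupport
    (HasCompactSupport.of_support_subset_isCompact hK hsup)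

/-- The density of the mean is the mean of the densities. -/
theorem av_Q (hB : T_MBU) {p q : ℕ} (m : ℕ) {S : Form (Fin (k + 1)) p} (hS : ProjForm S)
    (u : Fin q → (Fin (k + 1) → ℂ) → ℝ) {y : Fin (k + 1) → ℂ} (hy : y ≠ 0) :
    Integrable (fun X : Fin (k + 1) → Fin (k + 1) → ℂ =>
      bth (th0 k) X * Q (pull (lin (mX m X)) S) u y) ∧
    Q (avS m S) u y = ∫ X : Fin (k + 1) → Fin (k + 1) → ℂ,
      bth (th0 k) X * Q (pull (lin (mX m X)) S) u y := by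
  set H := (Fin.snoc (α := fun _ => Matrix (Fin (k + 1)) (Fin (k + 1)) ℂ)
    (fun j => hessR (u j) y) (Rad y)) with hH
  have h1 : ∀ X : Fin (k + 1) → Fin (k + 1) → ℂ,
      ((bth (th0 k) X : ℝ) : ℂ) * mixD (pull (lin (mX m X)) S y) H =
      ∑ e : (Fin p ⊕ Fin (q + 1)) ≃ Fin (k + 1), ∑ e' : (Fin p ⊕ Fin (q + 1)) ≃ Fin (k + 1),
        ((Equiv.Perm.sign (e.trans e'.symm) : ℤ) : ℂ) *
        (((bth (th0 k) X : ℝ) : ℂ) * pull (lin (mX m X)) S y (fun i => e (Sum.inl i))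
          (fun i => e' (Sum.inl i))) *
        ∏ j, H j (e (Sum.inr j)) (e' (Sum.inr j)) := by
    intro X
    unfold mixD
    rw [Finset.mul_sum]
    refine Finset.sum_congr rfl fun e _ => ?_
    rw [Finset.mul_sum]
    refine Finset.sum_congr rfl fun e' _ => ?_
    ring
  have hI : ∀ e e' : (Fin p ⊕ Fin (q + 1)) ≃ Fin (k + 1),
      Integrable (fun X : Fin (k + 1) → Fin (k + 1) → ℂ =>
        ((Equiv.Perm.sign (e.trans e'.symm) : ℤ) : ℂ) *
        (((bth (th0 k) X : ℝ) : ℂ) * pull (lin (mX m X)) S y (fun i => e (Sum.inl i))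
          (fun i => e' (Sum.inl i))) *
        ∏ j, H j (e (Sum.inr j)) (e' (Sum.inr j))) := fun e e' =>
    ((av_int hB m hS hy _ _).const_mul _).mul_const _
  have hI1 : Integrable (fun X : Fin (k + 1) → Fin (k + 1) → ℂ =>
      ((bth (th0 k) X : ℝ) : ℂ) * mixD (pull (lin (mX m X)) S y) H) := by
    simp only [h1]
    exact integrable_finsetSum _ fun e _ => integrable_finsetSum _ fun e' _ => hI e e'
  have h2 : mixD (avS m S y) H = ∫ X : Fin (k + 1) → Fin (k + 1) → ℂ,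
      ((bth (th0 k) X : ℝ) : ℂ) * mixD (pull (lin (mX m X)) S y) H := by
    simp only [h1]
    rw [integral_finsetSum _ fun e _ => integrable_finsetSum _ fun e' _ => hI e e']
    unfold mixD
    refine Finset.sum_congr rfl fun e _ => ?_
    rw [integral_finsetSum _ fun e' _ => hI e e']
    refine Finset.sum_congr rfl fun e' _ => ?_
    rw [integral_mul_const, integral_const_mul]
    rfl
  have h3 : ∀ X : Fin (k + 1) → Fin (k + 1) → ℂ,
      bth (th0 k) X * Q (pull (lin (mX m X)) S) u y =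
      RCLike.re (((bth (th0 k) X : ℝ) : ℂ) * mixD (pull (lin (mX m X)) S y) H) := by
    intro X
    unfold Q
    rw [RCLike.re_eq_complex_re, Complex.re_ofReal_mul]
  refine ⟨?_, ?_⟩
  · simp only [h3]
    exact hI1.re
  · simp only [h3]
    rw [integral_re hI1, ← h2]
    rfl

end mats

/-! ### The pointwise inequality -/

theorem mixD_lin {ι : Type} [Fintype ι] [DecidableEq ι] {p m n : ℕ} (a : ℂ) (c : Fin n → ℂ)
    (S1 S2 : (Fin p → ι) → (Fin p → ι) → ℂ) (T : Fin n → (Fin p → ι) → (Fin p → ι) → ℂ)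
    (H : Fin m → Matrix ι ι ℂ) :
    mixD (fun I J => a * S1 I J + ∑ r, c r * T r I J - S2 I J) H =
      a * mixD S1 H + ∑ r, c r * mixD (T r) H - mixD S2 H := by
  unfold mixD
  have h1 : ∑ r, c r * ∑ e : (Fin p ⊕ Fin m) ≃ ι, ∑ e' : (Fin p ⊕ Fin m) ≃ ι,
      ((Equiv.Perm.sign (e.trans e'.symm) : ℤ) : ℂ) *
        T r (fun i => e (Sum.inl i)) (fun i => e' (Sum.inl i)) *
        ∏ j, H j (e (Sum.inr j)) (e' (Sum.inr j)) =
      ∑ e : (Fin p ⊕ Fin m) ≃ ι, ∑ e' : (Fin p ⊕ Fin m) ≃ ι, ∑ r,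
        c r * (((Equiv.Perm.sign (e.trans e'.symm) : ℤ) : ℂ) *
        T r (fun i => e (Sum.inl i)) (fun i => e' (Sum.inl i)) *
        ∏ j, H j (e (Sum.inr j)) (e' (Sum.inr j))) := by
    simp only [Finset.mul_sum]
    rw [Finset.sum_comm]
    refine Finset.sum_congr rfl fun e _ => ?_
    rw [Finset.sum_comm]
  rw [h1, Finset.mul_sum, ← Finset.sum_add_distrib, ← Finset.sum_sub_distrib]
  refine Finset.sum_congr rfl fun e _ => ?_
  rw [Finset.mul_sum, ← Finset.sum_add_distrib, ← Finset.sum_sub_distrib]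
  refine Finset.sum_congr rfl fun e' _ => ?_
  rw [mul_sub, sub_mul, mul_add, add_mul, Finset.mul_sum, Finset.sum_mul]
  refine congrArg₂ _ (congrArg₂ _ (by ring) (Finset.sum_congr rfl fun r _ => by ring)) rfl

theorem ptw (hA4 : T_A4) {k s q m n : ℕ} (S : Form (Fin (k + 1)) (s + 1)) (C : ℝ)
    (b : Fin n → Fin (k + 1)) (δ c : Fin n → ℝ) (u : Fin q → (Fin (k + 1) → ℂ) → ℝ)
    (y : Fin (k + 1) → ℂ) (hu : ∀ j, (hessR (u j) y).PosSemidef)
    (h : Psd (fun I J => (C : ℂ) * om (k + 1) (s + 1) y I J +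
        ∑ r, (c r : ℂ) * TF s (b r) (δ r) y I J - avS m S y I J)) :
    Q (avS m S) u y ≤ C * Q (om (k + 1) (s + 1)) u y +
      ∑ r, c r * Q (TF s (b r) (δ r)) u y := by
  have h1 := hA4 (Fin (k + 1)) (s + 1) (q + 1) _
    (Fin.snoc (α := fun _ => Matrix (Fin (k + 1)) (Fin (k + 1)) ℂ)
      (fun j => hessR (u j) y) (Rad y)) h (by
        intro j
        refine Fin.lastCases ?_ (fun j => ?_) j
        · rw [Fin.snoc_last]
          exact rad_psd y
        · rw [Fin.snoc_castSucc]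
          exact hu j)
  rw [mixD_lin (C : ℂ) (fun r => (c r : ℂ)) (om (k + 1) (s + 1) y) (avS m S y)
    (fun r => TF s (b r) (δ r) y)] at h1
  have h2 := (Complex.le_def.1 h1).1
  rw [Complex.zero_re, Complex.sub_re, Complex.add_re, Complex.re_ofReal_mul,
    Complex.re_sum] at h2
  simp only [Complex.re_ofReal_mul] at h2
  unfold Q
  linarith

/-! ### The mean of a normalised density -/

section core

variable {k : ℕ}

/-- the density of the mean -/
noncomputable def Wm (m : ℕ) (σ : Form (Fin (k + 1 + 1)) (k + 1))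
    (X : Fin (k + 1 + 1) → Fin (k + 1 + 1) → ℂ) (y : Fin (k + 1 + 1) → ℂ) : ℝ :=
  bth (th0 (k + 1)) X * (‖(mX m X).det‖ ^ 2 * qf σ ((mX m X).mulVec y))

theorem Wm_meas (hB : T_MBU) (hS5 : T_S5) (m : ℕ) {σ : Form (Fin (k + 1 + 1)) (k + 1)}
    (hσ : ProjForm σ) (Φ : Fin (k + 1 + 1) → MvPolynomial (Fin (k + 1 + 1)) ℂ) :
    Measurable fun p : (Fin (k + 1 + 1) → Fin (k + 1 + 1) → ℂ) × (Fin (k + 1 + 1) → ℂ) =>
      Wm m σ p.1 (ev Φ p.2) := by
  have m1 : Measurable fun p : (Fin (k + 1 + 1) → Fin (k + 1 + 1) → ℂ) ×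
      (Fin (k + 1 + 1) → ℂ) => bth (th0 (k + 1)) p.1 :=
    (bth_cont hB th0_pos).measurable.comp measurable_fst
  have m2 : Measurable fun p : (Fin (k + 1 + 1) → Fin (k + 1 + 1) → ℂ) ×
      (Fin (k + 1 + 1) → ℂ) => ‖(mX m p.1).det‖ ^ 2 :=
    ((((mX_cont m).comp continuous_fst).matrix_det.norm).pow 2).measurable
  have m3 : Measurable fun p : (Fin (k + 1 + 1) → Fin (k + 1 + 1) → ℂ) ×
      (Fin (k + 1 + 1) → ℂ) => (mX m p.1).mulVec (ev Φ p.2) :=
    (((mX_cont m).comp continuous_fst).matrix_mulVec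
      ((ev_cont Φ).comp continuous_snd)).measurable
  exact m1.mul (m2.mul ((qf_meas hS5 hσ).comp m3))

theorem ne_ae : ∀ᵐ r : Fin (k + 1 + 1) → ℂ, r ≠ 0 := by
  filter_upwards [Pool.Agent.H13.EHD.ne_ae (k := k + 1)] with r hr h0
  exact hr (by rw [h0]; rfl)

theorem step1 (hB : T_MBU) (h1 : Pool.Agent.H92.EHD.T_EA1) (hD8 : T_D8) (hD11 : T_D11) {D : ℕ}
    (m : ℕ) {Φ : Fin (k + 1 + 1) → MvPolynomial (Fin (k + 1 + 1)) ℂ}
    {φ : (Fin (k + 1 + 1) → ℂ) → ℝ} {σ : Form (Fin (k + 1 + 1)) (k + 1)} (hD : 1 ≤ D)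
    (hΦ : IsH D Φ) (hφ0 : ∀ z, z ≠ 0 → 0 ≤ φ z) (hσ : ProjForm σ)
    (X : Fin (k + 1 + 1) → Fin (k + 1 + 1) → ℂ) :
    ENNReal.ofReal (bth (th0 (k + 1)) X * am φ Φ σ (fun _ : Fin 0 => ell) (mX m X)) ≤
      ∫⁻ x in {z | 0 ≤ ell z ∧ ell z < 1},
        ENNReal.ofReal (cf D Φ φ x) * ENNReal.ofReal (Wm m σ X (ev Φ x)) := by
  rcases eq_or_ne (bth (th0 (k + 1)) X) 0 with h0 | h0
  · rw [h0, zero_mul, ENNReal.ofReal_zero]
    exact zero_le
  have hX : (mX m X).det ≠ 0 := near_det _ (mX_near m X th0_pos.le (bth_supp hB th0_pos h0))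
  have hG := hD11 (k + 1 + 1) 1 D (lin (mX m X)) Φ le_rfl hD (lin_isH _ hX) hΦ
  have e1' : bth (th0 (k + 1)) X * am φ Φ σ (fun _ : Fin 0 => ell) (mX m X) =
      ∫ x in {z | 0 ≤ ell z ∧ ell z < 1}, bth (th0 (k + 1)) X * (φ x *
        Q (pull (cmp (lin (mX m X)) Φ) σ) (fun _ : Fin 0 => ell) x) := by
    rw [integral_const_mul]
    rfl
  rw [e1']
  refine (ofReal_int_le _).trans (le_of_eq (lintegral_congr_ae ?_))
  filter_upwards [ae_restrict_of_ae ne_ae] with x hxn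
  have hevG : ev (cmp (lin (mX m X)) Φ) x = (mX m X).mulVec (ev Φ x) := by
    rw [(hD8 (k + 1 + 1) (k + 1) (lin (mX m X)) Φ σ x).1, ev_lin]
  have hjacG : jac (cmp (lin (mX m X)) Φ) x = mX m X * jac Φ x := by
    rw [(hD8 (k + 1 + 1) (k + 1) (lin (mX m X)) Φ σ x).2.1, jac_lin]
  have hne : ev (cmp (lin (mX m X)) Φ) x ≠ 0 := by
    intro h0
    exact hxn (hG.1.nd x h0)
  have h6 := h1 (k + 1) D (cmp (lin (mX m X)) Φ) σ hD
    (fun i => by have := hG.1.hom i; rwa [one_mul] at this) hσ x hxn hne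
  rw [h6, hevG, hjacG, Matrix.det_mul, norm_mul, ← ENNReal.ofReal_mul (cf_nonneg hφ0 x hxn)]
  refine congrArg ENNReal.ofReal ?_
  simp only [cf, Wm, qf]
  ring

theorem Wm_eq (hB : T_MBU) (h1 : Pool.Agent.H92.EHD.T_EA1) (m : ℕ)
    {σ : Form (Fin (k + 1 + 1)) (k + 1)} (hσ : ProjForm σ)
    {y : Fin (k + 1 + 1) → ℂ} (hy : y ≠ 0) (X : Fin (k + 1 + 1) → Fin (k + 1 + 1) → ℂ) :
    Wm m σ X y = bth (th0 (k + 1)) X *
      Q (pull (lin (mX m X)) σ) (fun _ : Fin 0 => ell) y := by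
  rcases eq_or_ne (bth (th0 (k + 1)) X) 0 with h0 | h0
  · unfold Wm
    rw [h0, zero_mul, zero_mul]
  have hnear := mX_near m X th0_pos.le (bth_supp hB th0_pos h0)
  have hX : (mX m X).det ≠ 0 := near_det _ hnear
  have hne : ev (lin (mX m X)) y ≠ 0 := by
    rw [ev_lin]
    intro h2
    exact hy (near_inj _ hnear y h2)
  have h6 := h1 (k + 1) 1 (lin (mX m X)) σ le_rfl (lin_isH _ hX).hom hσ y hy hne
  rw [h6, ev_lin, jac_lin]
  unfold Wm qf
  simp

theorem step3 (hB : T_MBU) (h1 : Pool.Agent.H92.EHD.T_EA1) (hP3 : T_P3) (hA4 : T_A4) {m n : ℕ}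
    {σ : Form (Fin (k + 1 + 1)) (k + 1)} (hσ : ProjForm σ) (C : ℝ)
    (b : Fin n → Fin (k + 1 + 1)) (δ c : Fin n → ℝ) {y : Fin (k + 1 + 1) → ℂ} (hy : y ≠ 0)
    (h : Psd (fun I J => (C : ℂ) * om (k + 1 + 1) (k + 1) y I J +
        ∑ r, (c r : ℂ) * TF k (b r) (δ r) y I J - avS m σ y I J)) :
    ∫⁻ X : Fin (k + 1 + 1) → Fin (k + 1 + 1) → ℂ, ENNReal.ofReal (Wm m σ X y) ≤
      ENNReal.ofReal (C * Q (om (k + 1 + 1) (k + 1)) (fun _ : Fin 0 => ell) y +
        ∑ r, c r * Q (TF k (b r) (δ r)) (fun _ : Fin 0 => ell) y) := by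
  have h2 := av_Q (q := 0) hB m hσ (fun _ => ell) hy
  have h3 : Integrable fun X : Fin (k + 1 + 1) → Fin (k + 1 + 1) → ℂ => Wm m σ X y := by
    simp only [Wm_eq hB h1 m hσ hy]
    exact h2.1
  have h4 : ∀ X : Fin (k + 1 + 1) → Fin (k + 1 + 1) → ℂ, 0 ≤ Wm m σ X y := by
    intro X
    rcases eq_or_ne (bth (th0 (k + 1)) X) 0 with h0 | h0
    · unfold Wm
      rw [h0, zero_mul]
    have hnear := mX_near m X th0_pos.le (bth_supp hB th0_pos h0)
    refine mul_nonneg (bth_nonneg hB th0_pos X) (mul_nonneg (by positivity)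
      (qf_nonneg hP3 hσ _ fun h2 => hy (near_inj _ hnear y h2)))
  rw [← ofReal_integral_eq_lintegral_ofReal h3 (Filter.Eventually.of_forall h4)]
  refine ENNReal.ofReal_le_ofReal ?_
  simp only [Wm_eq hB h1 m hσ hy]
  rw [← h2.2]
  exact ptw hA4 σ C b δ c (fun _ : Fin 0 => ell) y (fun j => j.elim0) h

theorem TF_proj (hL5 : T_L5) (hD6 : T_D6) (hD7 : T_D7) (s : ℕ) (b : Fin (k + 1)) {δ : ℝ}
    (hδ : 0 < δ) : ProjForm (TF s b δ) := by
  have h1 : Pot (wH (k := k) b δ) := by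
    have h2 := hL5 (k + 1) 1 (MvPolynomial.X b) δ le_rfl (MvPolynomial.isHomogeneous_X ℂ b) hδ
    have h3 : (fun z : Fin (k + 1) → ℂ => (1 / (2 * ((1 : ℕ) : ℝ))) *
        Real.log (‖MvPolynomial.eval z (MvPolynomial.X b)‖ ^ 2 + δ ^ 2 * nsq z ^ 1)) =
        wH b δ := by
      funext z
      unfold wH
      rw [MvPolynomial.eval_X, pow_one, Nat.cast_one, mul_one]
    rwa [h3] at h2
  exact hD6 (k + 1) s (om (k + 1) s) (wH b δ) (hD7 (k + 1) s).1 h1

theorem step4 (h1 : Pool.Agent.H92.EHD.T_EA1) (hP1 : T_P1) (hP3 : T_P3) (hD5 : T_D5)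
    (hD6 : T_D6) (hD7 : T_D7) (hL5 : T_L5) {m n D : ℕ}
    {Φ : Fin (k + 1 + 1) → MvPolynomial (Fin (k + 1 + 1)) ℂ}
    {φ : (Fin (k + 1 + 1) → ℂ) → ℝ} {B C : ℝ} (hC : 0 ≤ C) (hD : 1 ≤ D) (hΦ : IsH D Φ)
    (hφ : Hom0 φ) (hφ0 : ∀ z, z ≠ 0 → 0 ≤ φ z) (hB0 : 0 ≤ B)
    (hom : pair φ (pull Φ (om (k + 1 + 1) (k + 1))) (fun _ : Fin 0 => ell) ≤ B)
    (hTF : ∀ (b : Fin (k + 1 + 1)) (δ : ℝ), (b : ℕ) < m → 0 < δ → δ ≤ 1 →
      pair φ (pull Φ (TF k b δ)) (fun _ : Fin 0 => ell) ≤ B)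
    (b : Fin n → Fin (k + 1 + 1)) (δ c : Fin n → ℝ)
    (hb : ∀ r, (b r : ℕ) < m ∧ 0 < δ r ∧ δ r ≤ 1 ∧ 0 ≤ c r) (hsum : ∑ r, c r ≤ C) :
    ∫⁻ x in {z | 0 ≤ ell z ∧ ell z < 1}, ENNReal.ofReal (cf D Φ φ x) *
      ENNReal.ofReal (C * Q (om (k + 1 + 1) (k + 1)) (fun _ : Fin 0 => ell) (ev Φ x) +
        ∑ r, c r * Q (TF k (b r) (δ r)) (fun _ : Fin 0 => ell) (ev Φ x)) ≤
    ENNReal.ofReal (2 * C * B) := by
  have hpf : ∀ τ : Form (Fin (k + 1 + 1)) (k + 1), ProjForm τ →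
      IntegrableOn (fun x => φ x * Q (pull Φ τ) (fun _ : Fin 0 => ell) x)
        {z | 0 ≤ ell z ∧ ell z < 1} ∧
      (∀ x, x ≠ 0 → 0 ≤ Q (pull Φ τ) (fun _ : Fin 0 => ell) x) ∧
      ∀ x, x ≠ 0 → cf D Φ φ x * Q τ (fun _ : Fin 0 => ell) (ev Φ x) =
        φ x * Q (pull Φ τ) (fun _ : Fin 0 => ell) x := by
    intro τ hτ
    have hpl : ProjForm (pull Φ τ) := hD5 (k + 1 + 1) (k + 1) D Φ _ hD hΦ hτ
    refine ⟨(hP1 (k + 1 + 1) (k + 1) 0 (pull Φ τ) (fun _ => ell)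
      (fun _ => 0) rfl hpl (fun j => j.elim0)).2 φ hφ.smooth.continuousOn,
      (hP3 (k + 1 + 1) (k + 1) 0 (pull Φ τ)
        (fun _ => ell) rfl hpl (fun j => j.elim0)).1, fun x hx => ?_⟩
    have h8 := h1 (k + 1) D Φ τ hD hΦ.hom hτ x hx (fun h0 => hx (hΦ.nd x h0))
    rw [h8]
    simp only [cf]
    ring
  have ho := hpf _ (hD7 (k + 1 + 1) (k + 1)).1
  have ht : ∀ r, _ := fun r => hpf (TF k (b r) (δ r)) (TF_proj hL5 hD6 hD7 k (b r) (hb r).2.1)
  have hint : IntegrableOn (fun x => C * (φ x * Q (pull Φ (om (k + 1 + 1) (k + 1)))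
      (fun _ : Fin 0 => ell) x) + ∑ r, c r * (φ x * Q (pull Φ (TF k (b r) (δ r)))
      (fun _ : Fin 0 => ell) x)) {z | 0 ≤ ell z ∧ ell z < 1} :=
    (ho.1.const_mul C).add (integrable_finsetSum _ fun r _ => (ht r).1.const_mul (c r))
  calc ∫⁻ x in {z | 0 ≤ ell z ∧ ell z < 1}, ENNReal.ofReal (cf D Φ φ x) *
      ENNReal.ofReal (C * Q (om (k + 1 + 1) (k + 1)) (fun _ : Fin 0 => ell) (ev Φ x) +
        ∑ r, c r * Q (TF k (b r) (δ r)) (fun _ : Fin 0 => ell) (ev Φ x)) =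
      ∫⁻ x in {z | 0 ≤ ell z ∧ ell z < 1}, ENNReal.ofReal (C * (φ x *
        Q (pull Φ (om (k + 1 + 1) (k + 1))) (fun _ : Fin 0 => ell) x) +
        ∑ r, c r * (φ x * Q (pull Φ (TF k (b r) (δ r))) (fun _ : Fin 0 => ell) x)) := by
        refine lintegral_congr_ae ?_
        filter_upwards [ae_restrict_of_ae ne_ae] with x hx
        rw [← ENNReal.ofReal_mul (cf_nonneg hφ0 x hx)]
        refine congrArg ENNReal.ofReal ?_
        rw [mul_add, Finset.mul_sum]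
        refine congrArg₂ _ ?_ (Finset.sum_congr rfl fun r _ => ?_)
        · rw [← ho.2.2 x hx]
          ring
        · rw [← (ht r).2.2 x hx]
          ring
    _ = ENNReal.ofReal (C * pair φ (pull Φ (om (k + 1 + 1) (k + 1))) (fun _ : Fin 0 => ell) +
        ∑ r, c r * pair φ (pull Φ (TF k (b r) (δ r))) (fun _ : Fin 0 => ell)) := by
        rw [← ofReal_integral_eq_lintegral_ofReal hint]
        · refine congrArg ENNReal.ofReal ?_
          rw [integral_add (ho.1.const_mul C)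
            (integrable_finsetSum _ fun r _ => (ht r).1.const_mul (c r)), integral_const_mul,
            integral_finsetSum _ fun r _ => (ht r).1.const_mul (c r)]
          simp only [integral_const_mul]
          rfl
        · filter_upwards [ae_restrict_of_ae ne_ae] with x hx
          exact add_nonneg (mul_nonneg hC (mul_nonneg (hφ0 x hx) (ho.2.1 x hx)))
            (Finset.sum_nonneg fun r _ => mul_nonneg (hb r).2.2.2
              (mul_nonneg (hφ0 x hx) ((ht r).2.1 x hx)))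
    _ ≤ ENNReal.ofReal (2 * C * B) := by
        refine ENNReal.ofReal_le_ofReal ?_
        have h5 : ∑ r, c r * pair φ (pull Φ (TF k (b r) (δ r))) (fun _ : Fin 0 => ell) ≤
            C * B := by
          calc _ ≤ ∑ r, c r * B := Finset.sum_le_sum fun r _ =>
                mul_le_mul_of_nonneg_left (hTF (b r) (δ r) (hb r).1 (hb r).2.1 (hb r).2.2.1)
                  (hb r).2.2.2
            _ = (∑ r, c r) * B := by rw [Finset.sum_mul]
            _ ≤ C * B := mul_le_mul_of_nonneg_right hsum hB0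
        have h6 := mul_le_mul_of_nonneg_left hom hC
        linarith

theorem core_bd (hB : T_MBU) (h1 : Pool.Agent.H92.EHD.T_EA1) (hP1 : T_P1) (hP3 : T_P3)
    (hA4 : T_A4) (hS5 : T_S5) (hD5 : T_D5) (hD6 : T_D6) (hD7 : T_D7) (hD8 : T_D8)
    (hD11 : T_D11) (hL5 : T_L5) {m n D : ℕ}
    {Φ : Fin (k + 1 + 1) → MvPolynomial (Fin (k + 1 + 1)) ℂ}
    {φ : (Fin (k + 1 + 1) → ℂ) → ℝ} {σ : Form (Fin (k + 1 + 1)) (k + 1)} {B C : ℝ}
    (hC : 0 ≤ C) (hD : 1 ≤ D) (hΦ : IsH D Φ) (hne : ∀ i, Φ i ≠ 0)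
    (hφ : Hom0 φ) (hφ0 : ∀ z, z ≠ 0 → 0 ≤ φ z) (hσ : ProjForm σ) (hB0 : 0 ≤ B)
    (hom : pair φ (pull Φ (om (k + 1 + 1) (k + 1))) (fun _ : Fin 0 => ell) ≤ B)
    (hTF : ∀ (b : Fin (k + 1 + 1)) (δ : ℝ), (b : ℕ) < m → 0 < δ → δ ≤ 1 →
      pair φ (pull Φ (TF k b δ)) (fun _ : Fin 0 => ell) ≤ B)
    (b : Fin n → Fin (k + 1 + 1)) (δ c : Fin n → ℝ)
    (hb : ∀ r, (b r : ℕ) < m ∧ 0 < δ r ∧ δ r ≤ 1 ∧ 0 ≤ c r) (hsum : ∑ r, c r ≤ C)
    (hpsd : ∀ y : Fin (k + 1 + 1) → ℂ, y ≠ 0 →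
      (∀ i : Fin (k + 1 + 1), (i : ℕ) < m → y i ≠ 0) →
      Psd (fun I J => (C : ℂ) * om (k + 1 + 1) (k + 1) y I J +
        ∑ r, (c r : ℂ) * TF k (b r) (δ r) y I J - avS m σ y I J)) :
    ∫ X : Fin (k + 1 + 1) → Fin (k + 1 + 1) → ℂ,
      bth (th0 (k + 1)) X * am φ Φ σ (fun _ : Fin 0 => ell) (mX m X) ≤ 2 * C * B := by
  have hae : ∀ᵐ x : Fin (k + 1 + 1) → ℂ, ∀ i, ev Φ x i ≠ 0 :=
    ae_all_iff.2 fun i => Pool.Agent.H20.EHD.ae_fin _ (Φ i) (hne i)
  have hmain : ENNReal.ofReal (∫ X : Fin (k + 1 + 1) → Fin (k + 1 + 1) → ℂ,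
      bth (th0 (k + 1)) X * am φ Φ σ (fun _ : Fin 0 => ell) (mX m X)) ≤
      ENNReal.ofReal (2 * C * B) := by
    calc _ ≤ ∫⁻ X : Fin (k + 1 + 1) → Fin (k + 1 + 1) → ℂ,
          ENNReal.ofReal (bth (th0 (k + 1)) X *
            am φ Φ σ (fun _ : Fin 0 => ell) (mX m X)) := ofReal_int_le _
      _ ≤ ∫⁻ X : Fin (k + 1 + 1) → Fin (k + 1 + 1) → ℂ,
          ∫⁻ x in {z | 0 ≤ ell z ∧ ell z < 1},
            ENNReal.ofReal (cf D Φ φ x) * ENNReal.ofReal (Wm m σ X (ev Φ x)) :=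
          lintegral_mono fun X => step1 hB h1 hD8 hD11 m hD hΦ hφ0 hσ X
      _ = ∫⁻ x in {z | 0 ≤ ell z ∧ ell z < 1},
          ∫⁻ X : Fin (k + 1 + 1) → Fin (k + 1 + 1) → ℂ,
            ENNReal.ofReal (cf D Φ φ x) * ENNReal.ofReal (Wm m σ X (ev Φ x)) := by
          refine lintegral_lintegral_swap (Measurable.aemeasurable ?_)
          exact ((cf_meas hφ).comp measurable_snd).ennreal_ofReal.mul
            (Wm_meas hB hS5 m hσ Φ).ennreal_ofReal
      _ ≤ ∫⁻ x in {z | 0 ≤ ell z ∧ ell z < 1}, ENNReal.ofReal (cf D Φ φ x) *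
          ENNReal.ofReal (C * Q (om (k + 1 + 1) (k + 1)) (fun _ : Fin 0 => ell) (ev Φ x) +
            ∑ r, c r * Q (TF k (b r) (δ r)) (fun _ : Fin 0 => ell) (ev Φ x)) := by
          refine lintegral_mono_ae ?_
          filter_upwards [ae_restrict_of_ae hae, ae_restrict_of_ae ne_ae] with x hx hx0
          rw [lintegral_const_mul' _ _ ENNReal.ofReal_ne_top]
          have hy : ev Φ x ≠ 0 := fun h0 => hx0 (hΦ.nd x h0)
          exact mul_le_mul_right (step3 hB h1 hP3 hA4 hσ C b δ c hy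
            (hpsd (ev Φ x) hy fun i _ => hx i)) _
      _ ≤ _ := step4 h1 hP1 hP3 hD5 hD6 hD7 hL5 hC hD hΦ hφ hφ0 hB0 hom hTF b δ c hb hsum
  exact (ENNReal.ofReal_le_ofReal_iff (by positivity)).1 hmain

end core

/-! ### Components are not zero -/

theorem comp_ne (hKB : T_KB) {k D : ℕ} {Φ : Fin (k + 1) → MvPolynomial (Fin (k + 1)) ℂ}
    (hD : 1 ≤ D) (hΦ : IsH D Φ) (b : Fin (k + 1)) : Φ b ≠ 0 := by
  intro h0
  have h1 : IsH (D * 2) (fun l => Φ l ^ 2) := by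
    refine ⟨fun i => (hΦ.hom i).pow 2, fun z hz => hΦ.nd z ?_⟩
    funext i
    have h2 := congrFun hz i
    unfold ev at h2 ⊢
    rw [map_pow] at h2
    exact pow_eq_zero_iff two_ne_zero |>.1 h2
  refine (hKB (k + 1) (D * 2) _ (Nat.succ_pos k) (by omega) h1).1 ?_
  unfold detP
  refine Matrix.det_eq_zero_of_row_eq_zero b fun a => ?_
  rw [Matrix.of_apply]
  simp only [h0]
  simp

/-! ### The logarithmic masses are finite -/

theorem nsq_pos {ι : Type} [Fintype ι] {z : ι → ℂ} (hz : z ≠ 0) : 0 < nsq z := by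
  obtain ⟨i, hi⟩ := Function.ne_iff.1 hz
  refine Finset.sum_pos' (fun i _ => by positivity) ⟨i, Finset.mem_univ i, ?_⟩
  have : 0 < ‖z i‖ := norm_pos_iff.2 hi
  positivity

theorem lm_exists (hP1 : T_P1) (hP3 : T_P3) (hS5 : T_S5) (hL3 : T_L3) (hL5 : T_L5)
    (hL6 : T_L6) (hD7 : T_D7) (hPLL : T_PLL) {k : ℕ} (m : ℕ)
    {σ : Form (Fin (k + 1 + 1)) (k + 1)} (hσ : ProjForm σ) :
    ∃ A : ℝ, 0 ≤ A ∧ LM m 0 σ A := by
  set M0 := mass 0 (om (k + 1 + 1) (k + 1)) with hM0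
  have hM : 0 < M0 := ((hD7 (k + 1 + 1) (k + 1)).2 0 rfl).1
  have hq := (hS5 (k + 1 + 1) (k + 1) 0 σ (fun _ => ell) (fun _ => 0) rfl hσ
    (fun j => j.elim0))
  obtain ⟨Bq, hBq, hBq2⟩ := (hL6 (k + 1 + 1)).1
    (fun z => nsq z ^ (k + 1 + 1) * Q σ (fun _ : Fin 0 => ell) z)
    ((Continuous.continuousOn (by unfold nsq; fun_prop)).mul hq.1) (by
      intro r z hr hz
      have h1 := hq.2.1 (r : ℂ) z (by exact_mod_cast hr.ne') hz
      have h2 : nsq ((r : ℂ) • z) = r ^ 2 * nsq z := by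
        unfold nsq
        rw [Finset.mul_sum]
        refine Finset.sum_congr rfl fun i _ => ?_
        rw [Pi.smul_apply, smul_eq_mul, norm_mul, Complex.norm_real, Real.norm_eq_abs,
          mul_pow, sq_abs]
      rw [h1, h2, Complex.norm_real, Real.norm_eq_abs, abs_of_pos hr, mul_pow, ← pow_mul]
      have h3 : r ^ (2 * (k + 1 + 1)) ≠ 0 := by positivity
      field_simp)
  have hnn := (hP3 (k + 1 + 1) (k + 1) 0 σ (fun _ => ell) rfl hσ (fun j => j.elim0)).1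
  have hmem : MeasurableSet {z : Fin (k + 1 + 1) → ℂ | 0 ≤ ell z ∧ ell z < 1} :=
    Pool.Agent.H13.EHD.sh_meas
  have hQ : ∀ z : Fin (k + 1 + 1) → ℂ, z ≠ 0 → 0 ≤ ell z →
      Q σ (fun _ : Fin 0 => ell) z ≤ Bq := by
    intro z hz h0
    have h1 : 1 ≤ nsq z := by
      by_contra hn
      have h2 := Real.log_neg (nsq_pos hz) (not_le.1 hn)
      unfold ell at h0
      linarith
    have h2 := (abs_le.1 (hBq2 z hz)).2
    have h3 : (1 : ℝ) ≤ nsq z ^ (k + 1 + 1) := one_le_pow₀ h1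
    nlinarith [hnn z hz]
  have hpt : ∀ (b : Fin (k + 1 + 1)) (z : Fin (k + 1 + 1) → ℂ), z b ≠ 0 →
      0 ≤ -Real.log (nv (MvPolynomial.X b) 1 z) ∧ ∀ δ : ℝ, 0 < δ →
      ell z - wH b δ z ≤ -Real.log (nv (MvPolynomial.X b) 1 z) := by
    intro b z hz
    have hz0 : z ≠ 0 := fun h => hz (by rw [h]; rfl)
    have hN := nsq_pos hz0
    have hb : 0 < ‖z b‖ ^ 2 := by
      have : 0 < ‖z b‖ := norm_pos_iff.2 hz
      positivity
    have h1 : Real.log (nv (MvPolynomial.X b) 1 z) =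
        (1 / 2) * Real.log (‖z b‖ ^ 2) - (1 / 2) * Real.log (nsq z) := by
      unfold nv nrm
      rw [MvPolynomial.eval_X, pow_one, Real.log_div (norm_ne_zero_iff.2 hz)
        (Real.sqrt_pos.2 hN).ne', Real.log_sqrt hN.le, Real.log_pow]
      push_cast
      ring
    have h2 : ‖z b‖ ^ 2 ≤ nsq z :=
      Finset.single_le_sum (f := fun i => ‖z i‖ ^ 2) (fun i _ => by positivity)
        (Finset.mem_univ b)
    rw [h1]
    refine ⟨?_, fun δ hδ => ?_⟩
    · have := Real.log_le_log hb h2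
      linarith
    · have h3 : ‖z b‖ ^ 2 ≤ ‖z b‖ ^ 2 + δ ^ 2 * nsq z := by
        have : 0 ≤ δ ^ 2 * nsq z := by positivity
        linarith
      have := Real.log_le_log hb h3
      unfold ell wH
      linarith
  have haeb : ∀ b : Fin (k + 1 + 1), ∀ᵐ z : Fin (k + 1 + 1) → ℂ, z b ≠ 0 := by
    intro b
    have h3 : (volume : Measure (Fin (k + 1 + 1) → ℂ)) {f | f b = 0} = 0 :=
      Measure.pi_hyperplane (fun _ : Fin (k + 1 + 1) => (volume : Measure ℂ)) b 0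
    rw [ae_iff]
    simpa using h3
  have hIb : ∀ b : Fin (k + 1 + 1), IntegrableOn
      (fun z : Fin (k + 1 + 1) → ℂ => -Real.log (nv (MvPolynomial.X b) 1 z) * Bq)
      {z | 0 ≤ ell z ∧ ell z < 1} := fun b =>
    (hPLL (k + 1 + 1) 1 (MvPolynomial.X b) (Nat.succ_pos _)
      (MvPolynomial.isHomogeneous_X ℂ b) (MvPolynomial.X_ne_zero b)).neg.mul_const Bq
  have hI0 : ∀ b : Fin (k + 1 + 1), 0 ≤ ∫ z in {z : Fin (k + 1 + 1) → ℂ | 0 ≤ ell z ∧
      ell z < 1}, -Real.log (nv (MvPolynomial.X b) 1 z) * Bq := by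
    intro b
    refine integral_nonneg_of_ae ?_
    filter_upwards [ae_restrict_of_ae (haeb b)] with z hz
    exact mul_nonneg (hpt b z hz).1 hBq.le
  refine ⟨(∑ b : Fin (k + 1 + 1), ∫ z in {z : Fin (k + 1 + 1) → ℂ | 0 ≤ ell z ∧
      ell z < 1}, -Real.log (nv (MvPolynomial.X b) 1 z) * Bq) / M0,
    div_nonneg (Finset.sum_nonneg fun b _ => hI0 b) hM.le, ?_⟩
  intro b _ δ hδ hδ1
  rw [div_mul_cancel₀ _ hM.ne']
  refine le_trans ?_ (Finset.single_le_sum (f := fun b : Fin (k + 1 + 1) =>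
    ∫ z in {z : Fin (k + 1 + 1) → ℂ | 0 ≤ ell z ∧ ell z < 1},
      -Real.log (nv (MvPolynomial.X b) 1 z) * Bq) (fun b _ => hI0 b) (Finset.mem_univ b))
  have hcw : ContinuousOn (fun z : Fin (k + 1 + 1) → ℂ => ell z - wH b δ z) {0}ᶜ := by
    have h1 : Pot (wH (k := k + 1) b δ) := by
      have h2 := hL5 (k + 1 + 1) 1 (MvPolynomial.X b) δ le_rfl
        (MvPolynomial.isHomogeneous_X ℂ b) hδ
      have h3 : (fun z : Fin (k + 1 + 1) → ℂ => (1 / (2 * ((1 : ℕ) : ℝ))) *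
          Real.log (‖MvPolynomial.eval z (MvPolynomial.X b)‖ ^ 2 + δ ^ 2 * nsq z ^ 1)) =
          wH b δ := by
        funext z
        unfold wH
        rw [MvPolynomial.eval_X, pow_one, Nat.cast_one, mul_one]
      rwa [h3] at h2
    exact (hL3 (k + 1 + 1)).1.smooth.continuousOn.sub h1.smooth.continuousOn
  have hint := (hP1 (k + 1 + 1) (k + 1) 0 σ (fun _ => ell) (fun _ => 0) rfl hσ
    (fun j => j.elim0)).2 _ hcw
  refine integral_mono_ae hint (hIb b) ?_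
  filter_upwards [ae_restrict_of_ae (haeb b), ae_restrict_mem hmem] with z hz hz2
  have hz0 : z ≠ 0 := fun h => hz (by rw [h]; rfl)
  have h1 := hnn z hz0
  have h2 := hQ z hz0 hz2.1
  have h3 := hpt b z hz
  calc (ell z - wH b δ z) * Q σ (fun _ : Fin 0 => ell) z ≤
      -Real.log (nv (MvPolynomial.X b) 1 z) * Q σ (fun _ : Fin 0 => ell) z :=
        mul_le_mul_of_nonneg_right (h3.2 δ hδ) h1
    _ ≤ _ := mul_le_mul_of_nonneg_left h2 h3.1

/-! ### Scaling -/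

theorem mixD_const_mul {ι : Type} [Fintype ι] [DecidableEq ι] {p m : ℕ} (c : ℂ)
    (S : (Fin p → ι) → (Fin p → ι) → ℂ) (H : Fin m → Matrix ι ι ℂ) :
    mixD (fun I J => c * S I J) H = c * mixD S H := by
  unfold mixD
  rw [Finset.mul_sum]
  refine Finset.sum_congr rfl fun e _ => ?_
  rw [Finset.mul_sum]
  refine Finset.sum_congr rfl fun e' _ => ?_
  ring

theorem pair_scale {N p q : ℕ} (φ : (Fin N → ℂ) → ℝ) (T T' : Form (Fin N) p)
    (u : Fin q → (Fin N → ℂ) → ℝ) (r : ℝ) (h : ∀ z I J, T' z I J = (r : ℂ) * T z I J) :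
    pair φ T' u = r * pair φ T u := by
  unfold pair Iint
  rw [← integral_const_mul]
  refine integral_congr_ae (Filter.Eventually.of_forall fun z => ?_)
  simp only []
  have h1 : Q T' u z = r * Q T u z := by
    unfold Q
    have h2 : T' z = fun I J => (r : ℂ) * T z I J := by
      funext I J
      exact h z I J
    rw [h2, mixD_const_mul, Complex.re_ofReal_mul]
  rw [h1]
  ring

theorem pf_MPA (hMSZ : T_MSZ) (hB : T_MBU) (h1 : Pool.Agent.H92.EHD.T_EA1) (hP1 : T_P1)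
    (hP3 : T_P3) (hP5 : T_P5) (hA4 : T_A4) (hS5 : T_S5) (hD5 : T_D5) (hD6 : T_D6)
    (hD7 : T_D7) (hD8 : T_D8) (hD11 : T_D11) (hL3 : T_L3) (hL5 : T_L5) (hL6 : T_L6)
    (hKB : T_KB) (hPLL : T_PLL) : T_MPA := by
  intro m k κ hm
  obtain ⟨C, hC, hmain⟩ := hMSZ m (k + 1) k 0 κ hm rfl
  set M0 := mass 0 (om (k + 1 + 1) (k + 1)) with hM0
  have hM : 0 < M0 := ((hD7 (k + 1 + 1) (k + 1)).2 0 rfl).1
  refine ⟨2 * C / M0, by positivity, ?_⟩
  intro D Φ hD hΦ φ u σ B hφ hφ0 hσ hK hB0 hom hTF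
  have hu : u = fun _ : Fin 0 => ell := by
    funext j
    exact j.elim0
  subst hu
  have hm0 : 0 ≤ mass 0 σ :=
    (hP3 (k + 1 + 1) (k + 1) 0 σ (fun _ => ell) rfl hσ (fun j => j.elim0)).2.1 (fun _ => 1)
      (fun _ _ => zero_le_one)
  rcases hm0.eq_or_lt with h0 | hpos
  · rw [← h0, mul_zero]
    obtain ⟨Bf, hBf, hBf2⟩ := (hL6 (k + 1 + 1)).1 φ hφ.smooth.continuousOn
      (fun r z hr hz => hφ.hom (r : ℂ) z (by exact_mod_cast hr.ne') hz)
    have hz : ∀ X : Fin (k + 1 + 1) → Fin (k + 1 + 1) → ℂ,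
        bth (th0 (k + 1)) X * am φ Φ σ (fun _ : Fin 0 => ell) (mX m X) = 0 := by
      intro X
      rcases eq_or_ne (bth (th0 (k + 1)) X) 0 with h2 | h2
      · rw [h2, zero_mul]
      have hX : (mX m X).det ≠ 0 :=
        near_det _ (mX_near m X th0_pos.le (bth_supp hB th0_pos h2))
      have hG := (hD11 (k + 1 + 1) 1 D (lin (mX m X)) Φ le_rfl hD (lin_isH _ hX) hΦ).1
      have hD' : 1 ≤ 1 * D := by omega
      have hpl : ProjForm (pull (cmp (lin (mX m X)) Φ) σ) :=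
        hD5 (k + 1 + 1) (k + 1) (1 * D) _ _ hD' hG hσ
      have h3 := (hP3 (k + 1 + 1) (k + 1) 0 _ (fun _ => ell) rfl hpl
        (fun j => j.elim0)).2.2.2 φ Bf hBf2
      rw [(hP5 (k + 1 + 1) (k + 1) 0 (1 * D) σ rfl hσ).1 _ hD' hG, ← h0, mul_zero,
        mul_zero] at h3
      unfold am
      rw [abs_nonpos_iff.1 h3, mul_zero]
    simp only [hz, integral_zero]
    exact le_rfl
  · set r : ℝ := M0 / mass 0 σ with hr
    have hrpos : 0 < r := div_pos hM hpos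
    set σ' : Form (Fin (k + 1 + 1)) (k + 1) := fun z I J => (r : ℂ) * σ z I J with hσ'
    have hpf : ProjForm σ' := Pool.Agent.H96.EQ.proj_const_mul σ r hrpos.le hσ
    have hK' : InK (Zk m κ) σ' := by
      intro z hz hzk I J
      simp only [hσ', hK z hz hzk I J, mul_zero]
    have hmass : mass 0 σ' = M0 := by
      have h2 : mass 0 σ' = r * mass 0 σ := pair_scale _ σ σ' _ r fun _ _ _ => rfl
      rw [h2, hr, div_mul_cancel₀ _ hpos.ne']
    obtain ⟨A, hA, hLM⟩ := lm_exists hP1 hP3 hS5 hL3 hL5 hL6 hD7 hPLL m hpf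
    obtain ⟨n, b, δ, c, hb, hsum, _, hpsd⟩ := hmain σ' A hA hpf hK' hLM hmass
    have hfin := core_bd hB h1 hP1 hP3 hA4 hS5 hD5 hD6 hD7 hD8 hD11 hL5 hC.le hD hΦ
      (comp_ne hKB hD hΦ) hφ hφ0 hpf hB0 hom hTF b δ c hb hsum hpsd
    have hsc : ∀ X : Fin (k + 1 + 1) → Fin (k + 1 + 1) → ℂ,
        bth (th0 (k + 1)) X * am φ Φ σ' (fun _ : Fin 0 => ell) (mX m X) =
        r * (bth (th0 (k + 1)) X * am φ Φ σ (fun _ : Fin 0 => ell) (mX m X)) := by
      intro X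
      have h2 : am φ Φ σ' (fun _ : Fin 0 => ell) (mX m X) =
          r * am φ Φ σ (fun _ : Fin 0 => ell) (mX m X) := by
        unfold am
        refine pair_scale _ _ _ _ r fun z I J => ?_
        exact Pool.Agent.H96.EQ.pull_const_mul _ σ (r : ℂ) z I J
      rw [h2]
      ring
    simp only [hsc] at hfin
    rw [integral_const_mul] at hfin
    have h5 : 2 * C / M0 * B * mass 0 σ = (2 * C * B) / r := by
      rw [hr]
      field_simp
    rw [h5, le_div_iff₀ hrpos, mul_comm]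
    exact hfin

end Pool.Agent.H73.EM
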